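import Pool.Agent.Lib.MP_b62b68_gt.Hyper

namespace Pool.Agent.Results.MP_b62b68_gt.NoSymmetrization

open Pool.Agent.Lib.MP_b62b68_gt

/-- If `dim H = i ≤ n - 1`, `2 ≤ j ≤ n` and `(i, j) ≠ (n - 1, n)`, then no class `𝓑` between the
class of convex bodies and the class of compact convex sets admits a symmetrization `𝓑 → 𝓑_H` that
is monotonic, `V_j`-preserving and invariant on `H`-symmetric sets. -/
theorem result {n i j : ℕ} (hi : i < n) (hj : 2 ≤ j) (hjn : j ≤ n)
    (hij : ¬ (i = n - 1 ∧ j = n))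
    (H : Submodule ℝ (E n)) (hH : Module.finrank ℝ H = i) (𝓑 : Set (Set (E n)))
    (h1 : convexBodies n ⊆ 𝓑) (h2 : 𝓑 ⊆ compactConvex n) :
    ¬ ∃ D : Set (E n) → Set (E n), IsGoodSymmetrization hjn 𝓑 H D :=
  main_all hjn hj (by omega) h1 h2

end Pool.Agent.Results.MP_b62b68_gt.NoSymmetrization
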